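import Pool.Agent.Lead.Sub2

set_option autoImplicit false

namespace Pool.Agent.Results.MP_bb4aa0_pr.Q1
open Pool.Agent.Lead.Sub

/-- The edge marginal of the uniform `k`-component forest can increase with `k`. -/
theorem result : ∃ (n : ℕ) (G : SimpleGraph (Fin n)) (e : Sym2 (Fin n)) (k : ℕ),
    G.Connected ∧ e ∈ G.edgeSet ∧ 1 ≤ k ∧ k < n ∧
      marg (forests G (n - k)) e < marg (forests G (n - (k + 1))) e :=
  ⟨7, gr ((2, 6) :: L7), s(2, 6), 1, conn7, adj7, by norm_num, by norm_num, key7⟩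

end Pool.Agent.Results.MP_bb4aa0_pr.Q1
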